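import Pool.Agent.H14.TOW.TargetsM

/-!
# Row TTH: the ideal of a place is totally invariant
-/

set_option autoImplicit false

open MvPolynomial
open Pool.Agent.H12.ZD (pmap)
open Pool.Agent.H18.HIT Pool.Agent.H18.HX Pool.Agent.H18.VP Pool.Agent.H18.VZ Pool.Agent.H14.TOW

namespace Pool.Agent.H46.TOW

section cone

variable {k κ : Type} [Field k] [Field κ] [Algebra k κ] {L : ℕ}

/-- the values at the generic point of the cone -/
noncomputable def al (v : Fin L → κ) : Po L k →ₐ[k] RatFunc κ :=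
  aeval fun i => RatFunc.C (v i) * RatFunc.X

theorem al_eq (v : Fin L → κ) (c : Po L k) : al v c =
    algebraMap (Polynomial κ) (RatFunc κ) ((aeval (fun i => Polynomial.C (v i) * Polynomial.X) :
      Po L k →ₐ[k] Polynomial κ) c) := by
  have h : al (k := k) v = (IsScalarTower.toAlgHom k (Polynomial κ) (RatFunc κ)).comp
      (aeval (fun i => Polynomial.C (v i) * Polynomial.X)) := by
    apply MvPolynomial.algHom_ext
    intro i
    rw [al, aeval_X, AlgHom.comp_apply, aeval_X, IsScalarTower.coe_toAlgHom', map_mul,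
      RatFunc.algebraMap_C, RatFunc.algebraMap_X]
  rw [h, AlgHom.comp_apply, IsScalarTower.coe_toAlgHom']

theorem al_zero (v : Fin L → κ) (c : Po L k) : al v c = 0 ↔ c ∈ pid v := by
  rw [al_eq, map_eq_zero_iff _ (RatFunc.algebraMap_injective κ), pid, RingHom.mem_ker]

theorem aeval_C (v : Fin L → κ) (c : Po L k) :
    aeval (fun i => RatFunc.C (v i)) c = RatFunc.C (aeval v c) := by
  have h : (aeval (fun i => RatFunc.C (v i)) : Po L k →ₐ[k] RatFunc κ) =
      (IsScalarTower.toAlgHom k κ (RatFunc κ)).comp (aeval v) := by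
    apply MvPolynomial.algHom_ext
    intro i
    rw [aeval_X, AlgHom.comp_apply, aeval_X, IsScalarTower.coe_toAlgHom',
      RatFunc.algebraMap_eq_C]
  rw [h, AlgHom.comp_apply, IsScalarTower.coe_toAlgHom', RatFunc.algebraMap_eq_C]

theorem aeval_mul_hom {R : Type} [CommRing R] [Algebra k R] {q : Po L k} {t : ℕ}
    (hq : q.IsHomogeneous t) (h : R) (G : Fin L → R) :
    aeval (fun i => G i * h) q = aeval G q * h ^ t := by
  rw [aeval_def, aeval_def, eval₂_eq', eval₂_eq', Finset.sum_mul]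
  apply Finset.sum_congr rfl
  intro m hm
  have h1 : ∏ i, (G i * h) ^ m i = (∏ i, G i ^ m i) * h ^ t := by
    rw [Finset.prod_congr rfl fun i _ => mul_pow (G i) h (m i), Finset.prod_mul_distrib,
      Finset.prod_pow_eq_pow_sum]
    congr 2
    have h2 := hq (mem_support_iff.mp hm)
    rw [Finsupp.weight_apply, Finsupp.sum_fintype _ _ (fun i => by simp)] at h2
    simpa using h2
  rw [h1]
  ring

theorem al_hom (v : Fin L → κ) {c : Po L k} {m : ℕ} (hc : c.IsHomogeneous m) :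
    al v c = RatFunc.C (aeval v c) * RatFunc.X ^ m := by
  rw [al, aeval_mul_hom hc, aeval_C]

end cone

theorem pf_TTH (h1 : T_LIN) (h2 : T_DIC) (h3 : T_CON) (hP : Pool.Agent.H14.TOW.T_PID) :
    T_TTH := by
  intro k κ _ _ _ τ n r d ec e P θ Δ F v γ hyp hF hd hB hv1 hPv hFv hlam hΔ hγ hQ hec
  obtain ⟨Φ, hΦC, hΦX, hΦ⟩ := h3 k κ τ (aeval v (F (Fin.succ 0))) d hlam hd
  have hΦα : ∀ c : Po (n + 1 + 1) k, Φ (al v c) = al v (aeval F c) := by
    intro c
    have h : Φ.comp (al (k := k) v) = (al v).comp (aeval F) := by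
      apply MvPolynomial.algHom_ext
      intro i
      rw [AlgHom.comp_apply, AlgHom.comp_apply, aeval_X, al_hom v (hF i), hFv i, map_mul, al,
        aeval_X, map_mul, hΦC, hΦX]
      ring
    exact DFunLike.congr_fun h c
  refine ⟨fun c hc => ?_, fun c hc => ?_⟩
  · rw [← al_zero, ← hΦα, (al_zero v c).2 hc, map_zero]
  set t : Fin ec → RatFunc κ := fun i => al v (θ ^ (i : ℕ)) with ht
  have hΔ0 : al v (aeval F Δ) ≠ 0 := fun h => hΔ ((al_zero v _).1 h)
  have hΔ1 : al v Δ ≠ 0 := by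
    intro h
    apply hΔ0
    rw [← hΦα, h, map_zero]
  have hS : ∀ s ∈ (al (k := k) v).range, Cmb Φ t s := by
    rintro s ⟨u, rfl⟩
    obtain ⟨M, c, hM⟩ := hB.gen u
    refine ⟨fun i => al v (c i) / al v Δ ^ M, ?_⟩
    have h4 : al v (aeval F Δ ^ M * u - ∑ i : Fin ec, θ ^ (i : ℕ) * aeval F (c i)) = 0 :=
      (al_zero v _).2 (Ideal.mem_of_dvd _ hM hPv)
    rw [map_sub, map_mul, map_pow, map_sum, sub_eq_zero] at h4
    have h5 : al v (aeval F Δ) ^ M ≠ 0 := pow_ne_zero _ hΔ0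
    have h6 : ∀ i : Fin ec, t i * Φ (al v (c i) / al v Δ ^ M) =
        al v (θ ^ (i : ℕ) * aeval F (c i)) / al v (aeval F Δ) ^ M := by
      intro i
      rw [map_div₀, map_pow, hΦα, hΦα, map_mul, mul_div_assoc']
    change al v u = _
    rw [Finset.sum_congr rfl fun i _ => h6 i, ← Finset.sum_div, ← h4, mul_div_cancel_left₀ _ h5]
  have hd2 := h2 k (RatFunc κ) Φ (Fin ec) t (al (k := k) v).range (fun i => ⟨_, rfl⟩) hS
  have hX : al (k := k) v (X (Fin.succ 0)) = RatFunc.X := by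
    rw [al, aeval_X, hv1, map_one, one_mul]
  have hg : ∀ i : Fin e × Fin d, Cmb Φ t (RatFunc.C (γ i.1) * RatFunc.X ^ (i.2 : ℕ)) := by
    intro i
    obtain ⟨m, A, B, hA, hBm, hB0, hAB⟩ := hQ i.1
    have hα : al v B ≠ 0 := by
      rw [al_hom v hBm]
      refine mul_ne_zero ?_ (pow_ne_zero _ RatFunc.X_ne_zero)
      rw [Ne, map_eq_zero_iff _ (RatFunc.C : κ →+* RatFunc κ).injective]
      exact hB0
    have h4 := hd2 (al v (A * X (Fin.succ 0) ^ (i.2 : ℕ))) ⟨_, rfl⟩ (al v B) ⟨_, rfl⟩ hα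
    have h5 : al v (A * X (Fin.succ 0) ^ (i.2 : ℕ)) / al v B =
        RatFunc.C (γ i.1) * RatFunc.X ^ (i.2 : ℕ) := by
      rw [div_eq_iff hα, map_mul, map_pow, hX, al_hom v hA, al_hom v hBm, ← hAB, map_mul]
      ring
    rwa [h5] at h4
  have hcard : Fintype.card (Fin ec) ≤ Fintype.card (Fin e × Fin d) := by
    rw [Fintype.card_prod, Fintype.card_fin, Fintype.card_fin, Fintype.card_fin, mul_comm]
    exact hec
  have hInd : Ind Φ t := ((h1 k (RatFunc κ) Φ (Fin ec) (Fin e × Fin d) t _ hg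
    ((hΦ e γ).1 hγ)).2 hcard).1
  intro i
  rw [← al_zero]
  refine hInd (fun i => al v (c i)) ?_ i
  have h4 := (al_zero v _).2 hc
  rw [map_sum] at h4
  rw [← h4]
  refine Finset.sum_congr rfl fun i _ => ?_
  rw [map_mul, hΦα]

end Pool.Agent.H46.TOW
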